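import Pool.Agent.Helper21.FX.StF

/-!
# Project FX, chapter K, module QEV
-/

set_option autoImplicit false

namespace Pool.Agent.Helper5.FX

open Polynomial Pool.Agent.Helper72.FX Pool.Agent.Helper21.FX

noncomputable section

/-- rank is additive in short exact sequences over a domain -/
theorem qv_ex {k : Type} [CommRing k] [IsDomain k] {M1 M2 M3 : Type} [AddCommGroup M1] [AddCommGroup M2]
    [AddCommGroup M3] [Module k M1] [Module k M2] [Module k M3] (g : M1 →ₗ[k] M2) (h : M2 →ₗ[k] M3)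
    (hg : Function.Injective g) (hh : Function.Surjective h) (hgh : LinearMap.range g = LinearMap.ker h) :
    Module.rank k M2 = Module.rank k M3 + Module.rank k M1 := by
  have h1 := rank_quotient_add_rank_of_isDomain (R := k) (LinearMap.ker h)
  rw [← h1, (h.quotKerEquivOfSurjective hh).rank_eq, ← hgh, (LinearEquiv.ofInjective g hg).rank_eq]

section

variable {k : Type} [CommRing k] [IsDomain k] (c : k[X])

/-- the polynomial `α² - c` -/
abbrev qf : Polynomial (Polynomial k) := X ^ 2 - C c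

theorem qf_monic : (qf c).Monic := monic_X_pow_sub_C c two_ne_zero

theorem qf_deg : (qf c).degree = 2 := by
  have := degree_X_pow_sub_C (n := 2) (by norm_num) c
  simpa using this

/-- the inclusion of `k[X]` -/
abbrev io : k[X] →+* Qr k c := AdjoinRoot.of (qf c)

/-- the root -/
abbrev al : Qr k c := AdjoinRoot.root (qf c)

theorem al_sq : al c * al c = io c c := by
  have h := AdjoinRoot.eval₂_root (qf c)
  rw [eval₂_sub, eval₂_pow, eval₂_X, eval₂_C, sub_eq_zero, sq] at h
  exact h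

theorem qv_rep (u : Qr k c) : ∃ p q : k[X], u = io c p + io c q * al c := by
  induction u using AdjoinRoot.induction_on with
  | ih g =>
    have hm := qf_monic c
    have h1 : (AdjoinRoot.mk (qf c)) g = AdjoinRoot.mk (qf c) (g %ₘ qf c) := by
      rw [AdjoinRoot.mk_eq_mk]
      exact ⟨g /ₘ qf c, by rw [sub_eq_iff_eq_add, add_comm, modByMonic_add_div]⟩
    have h2 : (g %ₘ qf c).degree < 2 := by
      have := degree_modByMonic_lt g hm
      rwa [qf_deg] at this
    have h3 : (g %ₘ qf c).degree ≤ 1 := by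
      rcases eq_or_ne (g %ₘ qf c) 0 with h0 | h0
      · rw [h0, degree_zero]
        exact bot_le
      · rw [degree_eq_natDegree h0] at h2 ⊢
        have h5 : (g %ₘ qf c).natDegree < 2 := by exact_mod_cast h2
        exact_mod_cast (by omega : (g %ₘ qf c).natDegree ≤ 1)
    have h4 := eq_X_add_C_of_degree_le_one h3
    refine ⟨(g %ₘ qf c).coeff 0, (g %ₘ qf c).coeff 1, ?_⟩
    rw [h1]
    conv_lhs => rw [h4]
    rw [map_add, map_mul, AdjoinRoot.mk_C, AdjoinRoot.mk_C, AdjoinRoot.mk_X, add_comm]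

theorem qv_zero (p q : k[X]) (h : io c p + io c q * al c = 0) : p = 0 ∧ q = 0 := by
  have h1 : AdjoinRoot.mk (qf c) (C p + C q * X) = 0 := by
    rw [map_add, map_mul, AdjoinRoot.mk_C, AdjoinRoot.mk_C, AdjoinRoot.mk_X]
    exact h
  rw [AdjoinRoot.mk_eq_zero] at h1
  have h2 : (C p + C q * X).degree < (qf c).degree := by
    rw [qf_deg, add_comm]
    refine lt_of_le_of_lt degree_linear_le ?_
    exact_mod_cast (by norm_num : (1:ℕ) < 2)
  have h3 : C p + C q * X = 0 := eq_zero_of_dvd_of_degree_lt h1 h2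
  refine ⟨?_, ?_⟩
  · simpa using congrArg (fun r => coeff r 0) h3
  · simpa using congrArg (fun r => coeff r 1) h3

theorem io_inj : Function.Injective (io c) := by
  rw [injective_iff_map_eq_zero]
  intro p hp
  exact (qv_zero c p 0 (by rw [hp, map_zero, zero_mul, add_zero])).1

theorem qv_norm (p q : k[X]) : (io c p + io c q * al c) * (io c p - io c q * al c) = io c (p ^ 2 - c * q ^ 2) := by
  rw [map_sub, map_mul, map_pow, map_pow]
  linear_combination (- (io c q) ^ 2) * al_sq c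

/-- the conjugation -/
def tau : Qr k c →ₐ[k] Qr k c :=
  AdjoinRoot.liftAlgHom (qf c) (IsScalarTower.toAlgHom k k[X] (Qr k c)) (-(al c)) (by
    rw [eval₂_sub, eval₂_pow, eval₂_X, eval₂_C, neg_sq, pow_two (al c), al_sq, sub_eq_zero]
    rfl)

theorem tau_io (p : k[X]) : tau c (io c p) = io c p := by
  unfold tau
  rw [AdjoinRoot.liftAlgHom_of]
  rfl

theorem tau_al : tau c (al c) = - al c := by
  unfold tau
  rw [AdjoinRoot.liftAlgHom_root]

theorem tau_rep (p q : k[X]) : tau c (io c p + io c q * al c) = io c p - io c q * al c := by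
  rw [map_add, map_mul, tau_io, tau_io, tau_al]
  ring

theorem tau_tau (u : Qr k c) : tau c (tau c u) = u := by
  obtain ⟨p, q, rfl⟩ := qv_rep c u
  rw [tau_rep, map_sub, map_mul, tau_io, tau_io, tau_al]
  ring

/-- conjugation as an equivalence -/
def tauE : Qr k c ≃ₐ[k] Qr k c :=
  AlgEquiv.ofAlgHom (tau c) (tau c) (AlgHom.ext fun u => tau_tau c u) (AlgHom.ext fun u => tau_tau c u)

theorem rank_tau (u : Qr k c) : Module.rank k (Qr k c ⧸ Ideal.span {tau c u}) = Module.rank k (Qr k c ⧸ Ideal.span {u}) := by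
  have h : Ideal.span {tau c u} = (Ideal.span {u}).map (tauE c : Qr k c →+* Qr k c) := by
    rw [Ideal.map_span, Set.image_singleton]
    rfl
  exact ((Ideal.quotientEquivAlg (R₁ := k) _ _ (tauE c) h).toLinearEquiv.rank_eq).symm

variable (hc : ∀ p q : k[X], (p ≠ 0 ∨ q ≠ 0) → p ^ 2 - c * q ^ 2 ≠ 0 ∧ Even (p ^ 2 - c * q ^ 2).natDegree)

include hc

theorem qv_nz (u : Qr k c) (hu : u ≠ 0) : ∃ n : k[X], n ≠ 0 ∧ Even n.natDegree ∧ u * tau c u = io c n := by
  obtain ⟨p, q, rfl⟩ := qv_rep c u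
  have h : p ≠ 0 ∨ q ≠ 0 := by
    by_contra h
    push Not at h
    apply hu
    rw [h.1, h.2]
    simp
  refine ⟨p ^ 2 - c * q ^ 2, (hc p q h).1, (hc p q h).2, ?_⟩
  rw [tau_rep, qv_norm]

theorem qv_dom : IsDomain (Qr k c) := by
  have hnt : Nontrivial (Qr k c) := (io_inj c).nontrivial
  have hnz : NoZeroDivisors (Qr k c) := by
    constructor
    intro u v huv
    by_contra hcon
    push Not at hcon
    obtain ⟨n, hn, -, h1⟩ := qv_nz c hc u hcon.1
    obtain ⟨m, hm, -, h2⟩ := qv_nz c hc v hcon.2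
    have h3 : io c (n * m) = 0 := by
      rw [map_mul, ← h1, ← h2]
      have : u * tau c u * (v * tau c v) = (u * v) * (tau c u * tau c v) := by ring
      rw [this, huv, zero_mul]
    have h4 := (map_eq_zero_iff _ (io_inj c)).1 h3
    exact (mul_ne_zero hn hm) h4
  exact NoZeroDivisors.to_isDomain _

theorem qv_tf : Module.IsTorsionFree k (Qr k c) := by
  have hd := qv_dom c hc
  have hinj : Function.Injective (algebraMap k (Qr k c)) := by
    have h1 : (algebraMap k (Qr k c)) = (io c).comp (C : k →+* k[X]) := rfl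
    rw [h1, RingHom.coe_comp]
    exact (io_inj c).comp C_injective
  have : FaithfulSMul k (Qr k c) := (faithfulSMul_iff_algebraMap_injective k (Qr k c)).2 hinj
  infer_instance

/-- ranks add -/
theorem qv_add (u v : Qr k c) (hu : u ≠ 0) :
    Module.rank k (Qr k c ⧸ Ideal.span {u * v}) =
      Module.rank k (Qr k c ⧸ Ideal.span {u}) + Module.rank k (Qr k c ⧸ Ideal.span {v}) := by
  have hd := qv_dom c hc
  let g0 : Qr k c →ₗ[k] (Qr k c ⧸ Ideal.span {u * v}) :=
    (Ideal.Quotient.mkₐ k (Ideal.span {u * v})).toLinearMap ∘ₗ LinearMap.mulLeft k u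
  have hg0 : ∀ x, g0 x = Ideal.Quotient.mk _ (u * x) := fun x => rfl
  let V : Submodule k (Qr k c) := (Ideal.span {v}).restrictScalars k
  have hk : LinearMap.ker g0 = V := by
    ext x
    rw [LinearMap.mem_ker, hg0, Ideal.Quotient.eq_zero_iff_mem, Submodule.restrictScalars_mem,
      Ideal.mem_span_singleton', Ideal.mem_span_singleton']
    constructor
    · rintro ⟨a, ha⟩
      exact ⟨a, mul_left_cancel₀ hu (by linear_combination ha)⟩
    · rintro ⟨a, ha⟩
      exact ⟨a, by linear_combination u * ha⟩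
  let h0 : (Qr k c ⧸ Ideal.span {u * v}) →ₐ[k] (Qr k c ⧸ Ideal.span {u}) :=
    Ideal.Quotient.factorₐ k (Ideal.span_singleton_le_span_singleton.2 (dvd_mul_right u v))
  have hh : Function.Surjective h0.toLinearMap := by
    intro y
    obtain ⟨x, rfl⟩ := Ideal.Quotient.mk_surjective y
    exact ⟨Ideal.Quotient.mk _ x, rfl⟩
  have hr : LinearMap.range g0 = LinearMap.ker h0.toLinearMap := by
    ext y
    obtain ⟨x, rfl⟩ := Ideal.Quotient.mk_surjective y
    rw [LinearMap.mem_ker]
    have h1 : h0.toLinearMap (Ideal.Quotient.mk _ x) = Ideal.Quotient.mk _ x := rfl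
    rw [h1, Ideal.Quotient.eq_zero_iff_mem, Ideal.mem_span_singleton', LinearMap.mem_range]
    constructor
    · rintro ⟨a, ha⟩
      rw [hg0, Ideal.Quotient.eq, Ideal.mem_span_singleton'] at ha
      obtain ⟨b, hb⟩ := ha
      exact ⟨a - b * v, by linear_combination -hb⟩
    · rintro ⟨a, rfl⟩
      exact ⟨a, by rw [hg0, mul_comm u a]⟩
  have hq := rank_quotient_add_rank_of_isDomain (R := k) (LinearMap.ker h0.toLinearMap)
  rw [← hq, (h0.toLinearMap.quotKerEquivOfSurjective hh).rank_eq, ← hr,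
    ← g0.quotKerEquivRange.rank_eq]
  congr 1
  rw [hk]
  rfl

omit hc in
/-- the rank of `A / n` -/
theorem qv_rkn (hR : StRNK) (n : k[X]) (hn : n ≠ 0) :
    Module.rank k (Qr k c ⧸ Ideal.span {io c n}) = ((n.natDegree + n.natDegree : ℕ) : Cardinal) := by
  have hR1 := hR k n hn
  let I : Ideal (Qr k c) := Ideal.span {io c n}
  let J : Ideal k[X] := Ideal.span {n}
  have hI : ∀ p q : k[X], io c p + io c q * al c ∈ I ↔ p ∈ J ∧ q ∈ J := by
    intro p q
    constructor
    · intro h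
      obtain ⟨w, hw⟩ := Ideal.mem_span_singleton'.1 h
      obtain ⟨p', q', rfl⟩ := qv_rep c w
      have h1 : io c (p - p' * n) + io c (q - q' * n) * al c = 0 := by
        rw [map_sub, map_sub, map_mul, map_mul]
        linear_combination -hw
      have h2 := qv_zero c _ _ h1
      exact ⟨Ideal.mem_span_singleton'.2 ⟨p', (sub_eq_zero.1 h2.1).symm⟩,
        Ideal.mem_span_singleton'.2 ⟨q', (sub_eq_zero.1 h2.2).symm⟩⟩
    · rintro ⟨h1, h2⟩
      obtain ⟨p', rfl⟩ := Ideal.mem_span_singleton'.1 h1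
      obtain ⟨q', rfl⟩ := Ideal.mem_span_singleton'.1 h2
      refine Ideal.mem_span_singleton'.2 ⟨io c p' + io c q' * al c, ?_⟩
      rw [map_mul, map_mul]
      ring
  -- the map from pairs
  let e0 : (k[X] × k[X]) →ₗ[k] Qr k c :=
    (IsScalarTower.toAlgHom k k[X] (Qr k c)).toLinearMap ∘ₗ LinearMap.fst k k[X] k[X] +
      (LinearMap.mulRight k (al c)) ∘ₗ (IsScalarTower.toAlgHom k k[X] (Qr k c)).toLinearMap ∘ₗ LinearMap.snd k k[X] k[X]
  have he0 : ∀ x, e0 x = io c x.1 + io c x.2 * al c := fun x => rfl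
  let e1 : (k[X] × k[X]) →ₗ[k] (Qr k c ⧸ I) := (Ideal.Quotient.mkₐ k I).toLinearMap ∘ₗ e0
  have he1 : ∀ x, e1 x = Ideal.Quotient.mk I (io c x.1 + io c x.2 * al c) := fun x => rfl
  let d1 : (k[X] × k[X]) →ₗ[k] ((k[X] ⧸ J) × (k[X] ⧸ J)) :=
    LinearMap.prodMap (Ideal.Quotient.mkₐ k J).toLinearMap (Ideal.Quotient.mkₐ k J).toLinearMap
  have hs1 : Function.Surjective e1 := by
    intro y
    obtain ⟨x, rfl⟩ := Ideal.Quotient.mk_surjective y
    obtain ⟨p, q, rfl⟩ := qv_rep c x
    exact ⟨(p, q), rfl⟩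
  have hd1 : Function.Surjective d1 := by
    rintro ⟨y, z⟩
    obtain ⟨p, rfl⟩ := Ideal.Quotient.mk_surjective y
    obtain ⟨q, rfl⟩ := Ideal.Quotient.mk_surjective z
    exact ⟨(p, q), rfl⟩
  have hker : LinearMap.ker e1 = LinearMap.ker d1 := by
    ext ⟨p, q⟩
    rw [LinearMap.mem_ker, LinearMap.mem_ker, he1, Ideal.Quotient.eq_zero_iff_mem]
    have h1 : d1 (p, q) = (Ideal.Quotient.mk J p, Ideal.Quotient.mk J q) := rfl
    rw [h1, Prod.mk_eq_zero, Ideal.Quotient.eq_zero_iff_mem, Ideal.Quotient.eq_zero_iff_mem]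
    exact hI p q
  have hrk : Module.rank k (Qr k c ⧸ I) = Module.rank k ((k[X] ⧸ J) × (k[X] ⧸ J)) := by
    rw [← (e1.quotKerEquivOfSurjective hs1).rank_eq, hker, (d1.quotKerEquivOfSurjective hd1).rank_eq]
  have hpr : Module.rank k ((k[X] ⧸ J) × (k[X] ⧸ J)) = Module.rank k (k[X] ⧸ J) + Module.rank k (k[X] ⧸ J) := by
    refine qv_ex (LinearMap.inl k (k[X] ⧸ J) (k[X] ⧸ J)) (LinearMap.snd k (k[X] ⧸ J) (k[X] ⧸ J))
      LinearMap.inl_injective LinearMap.snd_surjective ?_
    rw [LinearMap.ker_snd]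
  rw [hrk, hpr, hR1, Nat.cast_add]

end

theorem hQEV : StQEV := by
  intro hR k _ _ c hc
  refine ⟨qv_dom c hc, qv_tf c hc, fun u hu => ?_⟩
  obtain ⟨n, hn, hev, hmul⟩ := qv_nz c hc u hu
  have h1 := qv_add c hc u (tau c u) hu
  rw [rank_tau, hmul, qv_rkn c hR n hn] at h1
  have hfin : Module.rank k (Qr k c ⧸ Ideal.span {u}) < Cardinal.aleph0 := by
    refine lt_of_le_of_lt ?_ (Cardinal.natCast_lt_aleph0 (n := n.natDegree + n.natDegree))
    rw [h1]
    exact le_self_add
  refine ⟨hfin, ?_⟩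
  obtain ⟨m, hm⟩ := Cardinal.lt_aleph0.1 hfin
  rw [hm] at h1
  have h2 : n.natDegree + n.natDegree = m + m := by exact_mod_cast h1
  have h3 : m = n.natDegree := by omega
  have h4 : Module.finrank k (Qr k c ⧸ Ideal.span {u}) = m := by
    rw [Module.finrank, hm, Cardinal.toNat_natCast]
  rw [h4, h3]
  exact hev

end

end Pool.Agent.Helper5.FX
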