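import Pool.Agent.Helper71.FX.St
import Pool.Agent.Helper89.Wav.NA
import Pool.Agent.Helper26.Wav.NB

/-!
# Project FX, module PB: Bessel bound at one scale
-/

open MeasureTheory
open scoped FourierTransform RealInnerProductSpace Matrix ENNReal ComplexConjugate

noncomputable section

namespace Pool.Agent.Helper5.FX

open Wav Pool.Agent.Helper71.FX

/-- The bound in `ℝ≥0∞`. -/
theorem bessel_weight {n : ℕ} {A : Matrix (Fin n) (Fin n) ℝ} (hA : A.det ≠ 0) {Ψ : E n → ℂ}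
    (hΨ : Continuous Ψ) {M b : ℝ≥0∞} (hM' : M ≠ ∞) (hb' : b ≠ ∞) (hb : ∀ η, ‖Ψ η‖ₑ ≤ b)
    (hM : ∀ η : E n, ∑' m : Fin n → ℤ, ‖Ψ (η + ivec m)‖ₑ ≤ M) (j : ℤ)
    {f : E n → ℂ} (hf : MemLp f 2 volume) :
    Summable (fun k : Fin n → ℤ => ‖∫ ξ, conj (faff A Ψ j k ξ) * f ξ‖ ^ 2) ∧
    ENNReal.ofReal (∑' k : Fin n → ℤ, ‖∫ ξ, conj (faff A Ψ j k ξ) * f ξ‖ ^ 2) ≤
      M * ∫⁻ ξ, ‖f ξ‖ₑ ^ 2 * ‖Ψ (act (Aᵀ ^ (-j)) ξ)‖ₑ := by
  have hBdet : (Aᵀ).det ≠ 0 := by rwa [Matrix.det_transpose]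
  have huB : IsUnit (Aᵀ).det := isUnit_iff_ne_zero.2 hBdet
  have hBj : (Aᵀ ^ j).det ≠ 0 := (huB.det_zpow j).ne_zero
  have hD : 0 < |A.det| := abs_pos.2 hA
  have hdetj : |(Aᵀ ^ j).det| = |A.det| ^ (j : ℝ) := by
    rw [det_zpow' hBdet, Matrix.det_transpose, abs_zpow, Real.rpow_intCast]
  have htr : (A ^ (-j))ᵀ = Aᵀ ^ (-j) := by rw [Matrix.transpose_zpow]
  have hinv : ∀ x : E n, act (Aᵀ ^ (-j)) (act (Aᵀ ^ j) x) = x := by
    intro x
    rw [← act_mul, Matrix.zpow_neg_mul_zpow_self _ huB, act_one]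
  set c : ℝ := |A.det| ^ ((j : ℝ) / 2) with hc
  have hc0 : 0 < c := by positivity
  set F : (Fin n → ℝ) → ℂ := fun x =>
    (c : ℂ) * conj (Ψ (WithLp.toLp 2 x)) * f (act (Aᵀ ^ j) (WithLp.toLp 2 x)) with hF
  have hmp := PiLp.volume_preserving_toLp (Fin n)
  -- the integrals
  have hint : ∀ k : Fin n → ℤ, ∫ ξ, conj (faff A Ψ j k ξ) * f ξ = ∫ x, chr k x * F x := by
    intro k
    have e2 := integral_act hBj (fun ξ => conj (faff A Ψ j k ξ) * f ξ)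
    have e3 : ∫ ξ, conj (faff A Ψ j k ξ) * f ξ =
        ((|(Aᵀ ^ j).det| : ℝ) : ℂ) * ∫ x, conj (faff A Ψ j k (act (Aᵀ ^ j) x)) *
          f (act (Aᵀ ^ j) x) := by
      rw [e2, ← mul_assoc, ← Complex.ofReal_mul, mul_inv_cancel₀ (abs_ne_zero.2 hBj)]
      simp
    rw [e3, ← integral_const_mul, ← hmp.integral_comp
      (MeasurableEquiv.toLp 2 (Fin n → ℝ)).measurableEmbedding]
    refine integral_congr_ae (Filter.Eventually.of_forall fun x => ?_)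
    simp only [faff, hF, chr_eq_ee]
    rw [htr, hinv, inner_act, htr, hinv, hdetj]
    simp only [map_mul, ee_conj, Complex.conj_ofReal, neg_neg]
    have e4 : ((|A.det| ^ (j : ℝ) : ℝ) : ℂ) * ((|A.det| ^ (-(j : ℝ) / 2) : ℝ) : ℂ) = (c : ℂ) := by
      rw [← Complex.ofReal_mul, hc, ← Real.rpow_add hD]
      congr 2
      ring
    rw [← e4]
    ring
  -- measurability of `F`
  have hfm : AEStronglyMeasurable (fun x : Fin n → ℝ => f (act (Aᵀ ^ j) (WithLp.toLp 2 x)))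
      volume := by
    have h1 : AEStronglyMeasurable f (Measure.map (act (Aᵀ ^ j)) volume) := by
      rw [map_act hBj]
      exact hf.aestronglyMeasurable.smul_measure _
    have h2 : AEStronglyMeasurable (fun x : E n => f (act (Aᵀ ^ j) x)) volume :=
      h1.comp_measurable (act_emb hBj).measurable
    exact h2.comp_measurePreserving hmp
  have hΨc : Continuous (fun x : Fin n → ℝ => Ψ (WithLp.toLp 2 x)) :=
    hΨ.comp (PiLp.continuous_toLp 2 _)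
  have hFm : AEStronglyMeasurable F volume := by
    refine AEStronglyMeasurable.mul ?_ hfm
    refine AEStronglyMeasurable.const_mul ?_ _
    exact (Complex.continuous_conj.comp hΨc).aestronglyMeasurable
  -- pointwise bound of the periodization
  set G : (Fin n → ℝ) → ℝ≥0∞ := fun x =>
    ‖Ψ (WithLp.toLp 2 x)‖ₑ *
      (‖(c : ℂ)‖ₑ * ‖f (act (Aᵀ ^ j) (WithLp.toLp 2 x))‖ₑ) ^ 2 with hG
  have hGm : AEMeasurable G volume := by
    exact (hΨc.measurable.enorm.aemeasurable).mul ((hfm.enorm.const_mul _).pow_const 2)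
  have hhalf : ∀ a : ℝ≥0∞, a ^ (1 / 2 : ℝ) * a ^ (1 / 2 : ℝ) = a := by
    intro a
    rw [← ENNReal.rpow_add_of_nonneg _ _ (by norm_num) (by norm_num)]
    norm_num
  have hpt : ∀ x, (per (fun y => ‖F y‖ₑ) x) ^ 2 ≤ M * per G x := by
    intro x
    unfold per
    have e1 : ∀ m : Fin n → ℤ, ‖F (x + zv m)‖ₑ =
        (‖Ψ ((WithLp.toLp 2 x : E n) + ivec m)‖ₑ ^ (1 / 2 : ℝ)) *
        (‖Ψ ((WithLp.toLp 2 x : E n) + ivec m)‖ₑ ^ (1 / 2 : ℝ) *
          (‖(c : ℂ)‖ₑ * ‖f (act (Aᵀ ^ j) (WithLp.toLp 2 (x + zv m)))‖ₑ)) := by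
      intro m
      have e2 : (WithLp.toLp 2 (x + zv m) : E n) = (WithLp.toLp 2 x : E n) + ivec m := rfl
      rw [← mul_assoc, hhalf]
      simp only [hF, e2, enorm_mul]
      have e3 : ‖conj (Ψ ((WithLp.toLp 2 x : E n) + ivec m))‖ₑ =
          ‖Ψ ((WithLp.toLp 2 x : E n) + ivec m)‖ₑ := by
        rw [enorm_eq_nnnorm, enorm_eq_nnnorm, RCLike.nnnorm_conj]
      rw [e3]
      ring
    simp_rw [e1]
    refine (tsum_mul_sq_le _ _).trans ?_
    have e4 : ∀ a : ℝ≥0∞, (a ^ (1 / 2 : ℝ)) ^ 2 = a := fun a => by rw [sq, hhalf]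
    simp_rw [mul_pow, e4]
    have e5 : ∀ m : Fin n → ℤ, G (x + zv m) =
        ‖Ψ ((WithLp.toLp 2 x : E n) + ivec m)‖ₑ *
          (‖(c : ℂ)‖ₑ ^ 2 * ‖f (act (Aᵀ ^ j) (WithLp.toLp 2 (x + zv m)))‖ₑ ^ 2) := by
      intro m
      have e2 : (WithLp.toLp 2 (x + zv m) : E n) = (WithLp.toLp 2 x : E n) + ivec m := rfl
      simp only [hG, e2, mul_pow]
    simp_rw [e5]
    gcongr
    exact hM (WithLp.toLp 2 x)
  -- the integral of `G`
  have hcD : ‖(c : ℂ)‖ₑ ^ 2 * ENNReal.ofReal |((Aᵀ ^ j).det)⁻¹| = 1 := by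
    rw [enorm_eq_nnnorm, ← ENNReal.coe_pow]
    have e1 : ((‖(c : ℂ)‖₊ ^ 2 : NNReal) : ℝ≥0∞) = ENNReal.ofReal (c ^ 2) := by
      rw [ENNReal.ofReal]
      congr 1
      apply NNReal.eq
      rw [Real.coe_toNNReal _ (by positivity)]
      simp
    rw [e1, ← ENNReal.ofReal_mul (by positivity), abs_inv, hdetj, hc, ← Real.rpow_natCast,
      ← Real.rpow_mul hD.le, ← Real.rpow_neg hD.le, ← Real.rpow_add hD]
    have : (j : ℝ) / 2 * (2 : ℕ) + -(j : ℝ) = 0 := by push_cast; ring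
    rw [this]
    simp
  have hGint : ∫⁻ x, G x = ∫⁻ ξ, ‖f ξ‖ₑ ^ 2 * ‖Ψ (act (Aᵀ ^ (-j)) ξ)‖ₑ := by
    have e1 : ∫⁻ x, G x = ∫⁻ x : E n, ‖Ψ x‖ₑ * (‖(c : ℂ)‖ₑ * ‖f (act (Aᵀ ^ j) x)‖ₑ) ^ 2 :=
      hmp.lintegral_comp_emb (MeasurableEquiv.toLp 2 (Fin n → ℝ)).measurableEmbedding
        (fun x : E n => ‖Ψ x‖ₑ * (‖(c : ℂ)‖ₑ * ‖f (act (Aᵀ ^ j) x)‖ₑ) ^ 2)
    have e2 : ∫⁻ x : E n, ‖Ψ x‖ₑ * (‖(c : ℂ)‖ₑ * ‖f (act (Aᵀ ^ j) x)‖ₑ) ^ 2 =
        ∫⁻ x : E n, ‖(c : ℂ)‖ₑ ^ 2 * (‖f (act (Aᵀ ^ j) x)‖ₑ ^ 2 *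
          ‖Ψ (act (Aᵀ ^ (-j)) (act (Aᵀ ^ j) x))‖ₑ) := by
      refine lintegral_congr fun x => ?_
      rw [hinv, mul_pow]
      ring
    rw [e1, e2, lintegral_act hBj
      (fun ξ => ‖(c : ℂ)‖ₑ ^ 2 * (‖f ξ‖ₑ ^ 2 * ‖Ψ (act (Aᵀ ^ (-j)) ξ)‖ₑ)),
      lintegral_const_mul' _ _ (by simp), ← mul_assoc, mul_comm (ENNReal.ofReal _), hcD, one_mul]
  have hfin : ∫⁻ ξ, ‖f ξ‖ₑ ^ 2 < ∞ := by
    have := hf.eLpNorm_lt_top
    rw [eLpNorm_lt_top_iff_lintegral_rpow_enorm_lt_top (by norm_num) (by norm_num)] at this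
    simpa using this
  have hfin2 : ∫⁻ ξ, ‖f ξ‖ₑ ^ 2 * ‖Ψ (act (Aᵀ ^ (-j)) ξ)‖ₑ < ∞ := by
    calc ∫⁻ ξ, ‖f ξ‖ₑ ^ 2 * ‖Ψ (act (Aᵀ ^ (-j)) ξ)‖ₑ
        ≤ ∫⁻ ξ, ‖f ξ‖ₑ ^ 2 * b := lintegral_mono fun ξ => by gcongr; exact hb _
      _ = (∫⁻ ξ, ‖f ξ‖ₑ ^ 2) * b := lintegral_mul_const' _ _ hb'
      _ < ∞ := ENNReal.mul_lt_top hfin (lt_top_iff_ne_top.2 hb')
  have hsq : ∫⁻ x in cube (Fin n), (per (fun y => ‖F y‖ₑ) x) ^ 2 ≤
      M * ∫⁻ ξ, ‖f ξ‖ₑ ^ 2 * ‖Ψ (act (Aᵀ ^ (-j)) ξ)‖ₑ := by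
    calc ∫⁻ x in cube (Fin n), (per (fun y => ‖F y‖ₑ) x) ^ 2
        ≤ ∫⁻ x in cube (Fin n), M * per G x := lintegral_mono fun x => hpt x
      _ = M * ∫⁻ x in cube (Fin n), per G x := lintegral_const_mul' _ _ hM'
      _ = _ := by rw [lintegral_per hGm, hGint]
  have hsqfin : ∫⁻ x in cube (Fin n), (per (fun y => ‖F y‖ₑ) x) ^ 2 < ∞ :=
    hsq.trans_lt (ENNReal.mul_lt_top (lt_top_iff_ne_top.2 hM') hfin2)
  -- integrability of `F`
  have hFint : Integrable F := by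
    refine ⟨hFm, ?_⟩
    unfold HasFiniteIntegral
    rw [← lintegral_per hFm.enorm]
    calc ∫⁻ x in cube (Fin n), per (fun y => ‖F y‖ₑ) x
        ≤ ∫⁻ x in cube (Fin n), (1 + (per (fun y => ‖F y‖ₑ) x) ^ 2) := by
          refine lintegral_mono fun x => ?_
          rcases le_total (per (fun y => ‖F y‖ₑ) x) 1 with h | h
          · exact h.trans le_self_add
          · refine le_trans ?_ le_add_self
            calc per (fun y => ‖F y‖ₑ) x = per (fun y => ‖F y‖ₑ) x * 1 := (mul_one _).symm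
              _ ≤ per (fun y => ‖F y‖ₑ) x * per (fun y => ‖F y‖ₑ) x := by gcongr
              _ = _ := by ring
      _ = volume (cube (Fin n)) + ∫⁻ x in cube (Fin n), (per (fun y => ‖F y‖ₑ) x) ^ 2 := by
          rw [lintegral_add_left measurable_const]
          simp
      _ < ∞ := ENNReal.add_lt_top.2 ⟨volume_cube_lt_top _, hsqfin⟩
  have hperm : AEStronglyMeasurable (per F) (volume.restrict (cube (Fin n))) := by
    unfold per
    exact (AEMeasurable.tsum fun m =>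
      (aesm_shift hFm m).aemeasurable.restrict).aestronglyMeasurable
  have hperle : ∀ᵐ x ∂(volume.restrict (cube (Fin n))), ‖per F x‖ₑ ≤ per (fun y => ‖F y‖ₑ) x := by
    filter_upwards [ae_summable hFint] with x hx
    unfold per
    exact enorm_tsum_le_tsum_enorm
  have hperL2 : MemLp (per F) 2 (volume.restrict (cube (Fin n))) := by
    refine ⟨hperm, ?_⟩
    rw [eLpNorm_lt_top_iff_lintegral_rpow_enorm_lt_top (by norm_num) (by norm_num)]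
    refine lt_of_le_of_lt ?_ hsqfin
    refine lintegral_mono_ae ?_
    filter_upwards [hperle] with x hx
    simp only [ENNReal.toReal_ofNat, ENNReal.rpow_two]
    gcongr
  have hP := parseval_per hFint hperL2
  have hPint : Integrable (fun x => ‖per F x‖ ^ 2) (volume.restrict (cube (Fin n))) :=
    (memLp_two_iff_integrable_sq_norm hperm).1 hperL2
  simp_rw [hint]
  refine ⟨hP.summable, ?_⟩
  rw [hP.tsum_eq,
    ofReal_integral_eq_lintegral_ofReal hPint (Filter.Eventually.of_forall fun x => by positivity)]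
  refine le_trans (lintegral_mono_ae ?_) hsq
  filter_upwards [hperle] with x hx
  rw [ENNReal.ofReal_pow (norm_nonneg _), ofReal_norm]
  gcongr

theorem pPB : StPB := by
  intro n N C A Ψ hA hN hΨ hC
  obtain ⟨C0, hC0⟩ := lattice_sum n N hN
  have hN0 : 0 < N := lt_of_le_of_lt (Nat.cast_nonneg n) hN
  have hC00 : 0 ≤ C0 := le_trans (tsum_nonneg fun k => by positivity) (hC0 0).2
  have hbd : ∀ η, ‖Ψ η‖ ≤ |C| := by
    intro η
    refine (hC η).trans ?_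
    have h1 : (1 + ‖η‖) ^ (-N) ≤ 1 :=
      Real.rpow_le_one_of_one_le_of_nonpos (by linarith [norm_nonneg η]) (by linarith)
    calc C * (1 + ‖η‖) ^ (-N) ≤ |C| * (1 + ‖η‖) ^ (-N) :=
          mul_le_mul_of_nonneg_right (le_abs_self C) (by positivity)
      _ ≤ |C| * 1 := mul_le_mul_of_nonneg_left h1 (abs_nonneg C)
      _ = |C| := mul_one _
  have hb : ∀ η, ‖Ψ η‖ₑ ≤ ENNReal.ofReal |C| := by
    intro η
    rw [← ofReal_norm_eq_enorm]
    exact ENNReal.ofReal_le_ofReal (hbd η)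
  have hM : ∀ η : E n, ∑' m : Fin n → ℤ, ‖Ψ (η + ivec m)‖ₑ ≤ ENNReal.ofReal (|C| * C0) := by
    intro η
    obtain ⟨hs, hle⟩ := hC0 η
    calc ∑' m : Fin n → ℤ, ‖Ψ (η + ivec m)‖ₑ
        ≤ ∑' m : Fin n → ℤ, ENNReal.ofReal (|C| * (1 + ‖η + ivec m‖) ^ (-N)) := by
          refine ENNReal.tsum_le_tsum fun m => ?_
          rw [← ofReal_norm_eq_enorm]
          apply ENNReal.ofReal_le_ofReal
          refine (hC _).trans ?_
          exact mul_le_mul_of_nonneg_right (le_abs_self C) (by positivity)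
      _ = ENNReal.ofReal (∑' m : Fin n → ℤ, |C| * (1 + ‖η + ivec m‖) ^ (-N)) := by
          rw [ENNReal.ofReal_tsum_of_nonneg (fun m => by positivity) (hs.mul_left _)]
      _ ≤ ENNReal.ofReal (|C| * C0) := by
          apply ENNReal.ofReal_le_ofReal
          rw [tsum_mul_left]
          exact mul_le_mul_of_nonneg_left hle (abs_nonneg _)
  refine ⟨|C| * C0, by positivity, fun j g hg => ?_⟩
  obtain ⟨h1, h2⟩ := bessel_weight hA hΨ ENNReal.ofReal_ne_top ENNReal.ofReal_ne_top hb hM j hg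
  refine ⟨h1, ?_⟩
  have hgi : Integrable (fun ξ => ‖g ξ‖ ^ 2) := (memLp_two_iff_integrable_sq_norm hg.1).1 hg
  have hact : Continuous (fun ξ : E n => Ψ (act (Aᵀ ^ (-j)) ξ)) := by
    refine hΨ.comp ?_
    rw [act_eq]
    exact LinearMap.continuous_of_finiteDimensional _
  have hI : Integrable (fun ξ => ‖g ξ‖ ^ 2 * ‖Ψ (act (Aᵀ ^ (-j)) ξ)‖) := by
    have := hgi.bdd_mul (c := |C|) (f := fun ξ => ‖Ψ (act (Aᵀ ^ (-j)) ξ)‖)
      hact.norm.aestronglyMeasurable (Filter.Eventually.of_forall fun ξ => by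
        rw [norm_norm]; exact hbd _)
    refine this.congr (Filter.Eventually.of_forall fun ξ => ?_)
    simp only
    ring
  have h3 : ∫⁻ ξ, ‖g ξ‖ₑ ^ 2 * ‖Ψ (act (Aᵀ ^ (-j)) ξ)‖ₑ =
      ENNReal.ofReal (∫ ξ, ‖g ξ‖ ^ 2 * ‖Ψ (act (Aᵀ ^ (-j)) ξ)‖) := by
    rw [ofReal_integral_eq_lintegral_ofReal hI
      (Filter.Eventually.of_forall fun x => by positivity)]
    refine lintegral_congr fun ξ => ?_
    rw [ENNReal.ofReal_mul (by positivity), ENNReal.ofReal_pow (norm_nonneg _), ofReal_norm,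
      ofReal_norm]
  rw [h3, ← ENNReal.ofReal_mul (by positivity)] at h2
  refine (ENNReal.ofReal_le_ofReal_iff ?_).1 h2
  exact mul_nonneg (by positivity) (integral_nonneg fun ξ => by positivity)

end Pool.Agent.Helper5.FX
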